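import Mathlib

set_option autoImplicit false

namespace Pool.Agent.Results.MP_b3a441_al.Cover

universe u

/-- A Steiner loop. -/
class SteinerLoop (X : Type u) extends Mul X, One X where
  one_mul : ∀ x : X, 1 * x = x
  mul_comm : ∀ x y : X, x * y = y * x
  mul_mul : ∀ x y : X, x * (x * y) = y

/-- The subloop generated by `x`, `y`, `z`. -/
def gen {X : Type u} [SteinerLoop X] (x y z : X) : Set X :=
  {a | ∀ S : Set X, (1 : X) ∈ S → (∀ p ∈ S, ∀ q ∈ S, p * q ∈ S) → x ∈ S → y ∈ S → z ∈ S → a ∈ S}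

/-- Associativity propagates in `X`. -/
def Propagates (X : Type u) [SteinerLoop X] : Prop :=
  ∀ x y z : X, x * (y * z) = (x * y) * z →
    ∀ a ∈ gen x y z, ∀ b ∈ gen x y z, ∀ c ∈ gen x y z, a * (b * c) = (a * b) * c

section constr

variable {F : Type u} [SteinerLoop F]

open SteinerLoop

lemma mo (x : F) : x * 1 = x := by rw [SteinerLoop.mul_comm, SteinerLoop.one_mul]

lemma ms (x : F) : x * x = 1 := by
  have := mul_mul x 1
  rwa [mo] at this

lemma m2 (x y : F) : y * (x * y) = x := by rw [SteinerLoop.mul_comm x y, mul_mul]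
lemma m3 (x y : F) : (x * y) * x = y := by rw [SteinerLoop.mul_comm, mul_mul]
lemma m4 (x y : F) : (x * y) * y = x := by rw [SteinerLoop.mul_comm, m2]

lemma cancel {x y z : F} (h : x * y = x * z) : y = z := by
  rw [← mul_mul x y, h, mul_mul]

open Classical in
noncomputable def θ (x y : F) : Set F → ZMod 2 :=
  fun B => if x ≠ 1 ∧ y ≠ 1 ∧ x ≠ y ∧ B = {x, y, x * y} then 1 else 0

lemma θc (x y : F) : θ x y = θ y x := by
  funext B
  unfold θ
  congr 1
  rw [SteinerLoop.mul_comm y x, Set.insert_comm y x]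
  apply propext; tauto

lemma θ1 (x : F) : θ 1 x = 0 := by funext B; simp [θ]
lemma θ1' (x : F) : θ x 1 = 0 := by funext B; simp [θ]
lemma θs (x : F) : θ x x = 0 := by funext B; simp [θ]

lemma θm (x y : F) : θ x (x * y) = θ x y := by
  funext B
  unfold θ
  congr 1
  have h1 : x * y = 1 ↔ x = y := ⟨fun h => (cancel (h.trans (ms x).symm)).symm, fun h => h ▸ ms x⟩
  have h2 : x = x * y ↔ y = 1 := ⟨fun h => cancel (h.symm.trans (mo x).symm), fun h => by rw [h, mo]⟩
  rw [mul_mul, Set.pair_comm (x * y) y]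
  simp only [ne_eq, h1, h2]
  apply propext; tauto

lemma θm2 (x y : F) : θ y (x * y) = θ x y := by rw [SteinerLoop.mul_comm x y, θm, θc]
lemma θm3 (x y : F) : θ (x * y) x = θ x y := by rw [θc, θm]
lemma θm4 (x y : F) : θ (x * y) y = θ x y := by rw [θc, θm2]

def X (F : Type u) : Type u := (Set F → ZMod 2) × F

lemma add_self (a : Set F → ZMod 2) : a + a = 0 := by
  funext B
  simp only [Pi.add_apply, Pi.zero_apply]
  generalize a B = t
  revert t; decide

noncomputable instance : SteinerLoop (X F) where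
  mul p q := (p.1 + q.1 + θ p.2 q.2, p.2 * q.2)
  one := (0, 1)
  one_mul p := Prod.ext (by show 0 + p.1 + θ 1 p.2 = p.1; simp [θ1]) (SteinerLoop.one_mul _)
  mul_comm p q := Prod.ext (by
    show p.1 + q.1 + θ p.2 q.2 = q.1 + p.1 + θ q.2 p.2
    rw [θc, add_comm p.1]) (SteinerLoop.mul_comm _ _)
  mul_mul p q := Prod.ext (by
    show p.1 + (p.1 + q.1 + θ p.2 q.2) + θ p.2 (p.2 * q.2) = q.1
    rw [θm]
    linear_combination add_self p.1 + add_self (θ p.2 q.2)) (mul_mul _ _)

lemma X1 (p q : X F) : (p * q).1 = p.1 + q.1 + θ p.2 q.2 := rfl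
lemma X2 (p q : X F) : (p * q).2 = p.2 * q.2 := rfl

def K (s t : F) : Set F := {1, s, t, s * t}

lemma K_mul (s t : F) : ∀ a ∈ K s t, ∀ b ∈ K s t, a * b ∈ K s t := by
  rintro a (rfl | rfl | rfl | rfl) b (rfl | rfl | rfl | rfl) <;>
    simp [K, SteinerLoop.one_mul, mo, ms, mul_mul, m2, m3, m4]
  rw [SteinerLoop.mul_comm]; simp

lemma K_assoc (s t : F) : ∀ a ∈ K s t, ∀ b ∈ K s t, ∀ c ∈ K s t,
    a * (b * c) = (a * b) * c ∧ θ b c + θ a (b * c) = θ a b + θ (a * b) c := by
  have e : t * s = s * t := SteinerLoop.mul_comm _ _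
  have e' : θ t s = θ s t := θc _ _
  have z := add_self (θ s t)
  intro a ha b hb c hc
  simp only [K, Set.mem_insert_iff, Set.mem_singleton_iff] at ha hb hc
  rcases ha with ha | ha | ha | ha <;> rcases hb with hb | hb | hb | hb <;>
    rcases hc with hc | hc | hc | hc <;> rw [ha, hb, hc] <;>
    simp only [SteinerLoop.one_mul, mo, ms, mul_mul, m2, m3, m4, e, e', θ1, θ1', θs, θm, θm2, θm3,
      θm4, z, add_zero, zero_add, and_self]

lemma inK {x y z : F} (h : θ y z + θ x (y * z) = θ x y + θ (x * y) z) :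
    ∃ s t, x ∈ K s t ∧ y ∈ K s t ∧ z ∈ K s t := by
  by_cases h1 : x = 1
  · exact ⟨y, z, by simp [K, h1], by simp [K], by simp [K]⟩
  by_cases h2 : y = 1
  · exact ⟨x, z, by simp [K], by simp [K, h2], by simp [K]⟩
  by_cases h3 : x = y
  · exact ⟨y, z, by simp [K, h3], by simp [K], by simp [K]⟩
  by_cases h4 : z ∈ K x y
  · exact ⟨x, y, by simp [K], by simp [K], h4⟩
  exfalso
  simp only [K, Set.mem_insert_iff, Set.mem_singleton_iff, not_or] at h4
  obtain ⟨z1, z2, z3, z4⟩ := h4
  have hz : z ∉ ({x, y, x * y} : Set F) := by simp [z2, z3, z4]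
  have hyz : y * z ∉ ({x, y, x * y} : Set F) := by
    simp only [Set.mem_insert_iff, Set.mem_singleton_iff, not_or]
    refine ⟨fun e => z4 ?_, fun e => z1 (cancel (e.trans (mo y).symm)), fun e => z2 ?_⟩
    · rw [← e, m3]
    · rw [SteinerLoop.mul_comm x y] at e; exact cancel e
  have := congrFun h {x, y, x * y}
  simp only [Pi.add_apply, θ] at this
  rw [if_neg, if_neg, if_pos ⟨h1, h2, h3, rfl⟩, if_neg] at this
  · exact absurd this (by decide)
  · rintro ⟨-, -, -, e⟩; exact hz (by rw [e]; simp)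
  · rintro ⟨-, -, -, e⟩; exact hyz (by rw [e]; simp)
  · rintro ⟨-, -, -, e⟩; exact hz (by rw [e]; simp)

lemma prop : Propagates (X F) := by
  intro x y z h
  have h1 := congrArg Prod.fst h
  rw [X1, X1, X1, X1, X2, X2] at h1
  obtain ⟨s, t, hx, hy, hz⟩ := inK (x := x.2) (y := y.2) (z := z.2) (by linear_combination h1)
  have key : ∀ a ∈ gen x y z, a.2 ∈ K s t := fun a ha =>
    ha {p | p.2 ∈ K s t} (Or.inl rfl) (fun p hp q hq => K_mul s t _ hp _ hq) hx hy hz
  intro a ha b hb c hc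
  obtain ⟨e1, e2⟩ := K_assoc s t _ (key a ha) _ (key b hb) _ (key c hc)
  refine Prod.ext ?_ e1
  rw [X1, X1, X1, X1, X2, X2]
  linear_combination e2

end constr

/-- Every Steiner loop is a homomorphic image of a Steiner loop in which associativity propagates;
the latter can be taken finite if the former is finite. -/
theorem result (F : Type u) [SteinerLoop F] :
    ∃ (X : Type u) (_ : SteinerLoop X), Propagates X ∧ (Finite F → Finite X) ∧
      ∃ f : X → F, Function.Surjective f ∧ ∀ p q : X, f (p * q) = f p * f q :=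
  ⟨X F, inferInstance, prop, fun _ => inferInstanceAs (Finite ((Set F → ZMod 2) × F)), Prod.snd,
    fun x => ⟨(0, x), rfl⟩, fun _ _ => rfl⟩

end Pool.Agent.Results.MP_b3a441_al.Cover
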